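import Pool.Agent.Q167.PermGame.Pairing

/-!
# The permutation-building game under Convention I

Player A has a winning strategy exactly for `N = 1` and `N = 2`; player B has a winning strategy
for every `N ≥ 3`.
-/

set_option autoImplicit false

namespace Pool.Agent.Results.MP_337ab5_co.ConventionOne

open Equiv Q167.PermGame

/-- Any rule gives a strategy, after its illegal choices are replaced by legal ones. -/
noncomputable def mkStrategy {N : ℕ} (f : List (Fin N) → Fin N) : Strategy N where
  first := legalize f
  second := fun _ => legalize f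
  first_legal := fun w _ h => legalize_legal f w h
  second_legal := fun _ w _ h => legalize_legal f w h

lemma chooserFirst_B {i : ℕ} (h : i % 2 = 1) : chooserFirst (i + 1) = Player.B := by
  have : ¬ Odd (i + 1) := by rw [Nat.not_odd_iff_even, Nat.even_iff]; omega
  simp [chooserFirst, this]

lemma chooserSecond_B {N i : ℕ} (h : i % 2 = 1) :
    chooserSecond Convention.I N (i + 1) = Player.B := by
  have : ¬ Odd (i + 1) := by rw [Nat.not_odd_iff_even, Nat.even_iff]; omega
  simp [chooserSecond, this]

/-- B wins for even `N ≥ 4`. -/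
lemma bWins_even {N : ℕ} (hN : Even N) (h4 : 4 ≤ N) :
    HasWinningStrategy Convention.I Player.B N := by
  refine ⟨mkStrategy (pairRule hN (by omega)), fun σ τ hf => ?_⟩
  refine closure_ne_top_of_pair hN h4 σ τ ?_ ?_
  · exact pair_commute hN (by omega) σ (fun i hi => hf.1 i (chooserFirst_B hi))
  · exact pair_commute hN (by omega) τ (fun i hi => hf.2 i (chooserSecond_B hi))

/-- B wins for odd `N ≥ 3`. -/
lemma bWins_odd {N : ℕ} (hN : Odd N) (h3 : 3 ≤ N) :
    HasWinningStrategy Convention.I Player.B N := by
  have hmod : (N - 2) % 2 = 1 := by rw [Nat.odd_iff] at hN; omega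
  refine ⟨mkStrategy (evenRule (by omega)), fun σ τ hf => ?_⟩
  refine closure_ne_top_of_even (by omega) σ τ ?_ ?_
  · exact sign_eq_one_of_evenRule (by omega) σ (hf.1 ⟨N - 2, by omega⟩ (chooserFirst_B hmod))
  · exact sign_eq_one_of_evenRule (by omega) τ (hf.2 ⟨N - 2, by omega⟩ (chooserSecond_B hmod))

/-- A wins for `N = 1` and `N = 2`. -/
lemma aWins_small {N : ℕ} (h1 : 1 ≤ N) (h2 : N ≤ 2) :
    HasWinningStrategy Convention.I Player.A N := by
  interval_cases N
  · exact ⟨mkStrategy (fun _ => 0), fun σ τ _ => Subsingleton.elim _ _⟩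
  · refine ⟨mkStrategy (fun _ => 1), fun σ τ hf => ?_⟩
    have h0 := hf.1 0 (by simp [chooserFirst])
    have h3 : σ 0 = 1 := by
      rw [h0]
      have h4 : pre σ ((0 : Fin 2) : ℕ) = [] := by simp [pre]
      rw [h4]
      exact legalize_eq (f := fun _ : List (Fin 2) => (1 : Fin 2)) (w := []) (by simp)
    have h5 : σ = swap 0 1 := by
      have : ∀ ρ : Perm (Fin 2), ρ 0 = 1 → ρ = swap 0 1 := by decide
      exact this σ h3
    rw [Wins, eq_top_iff]
    intro g _
    have h6 : ∀ g : Perm (Fin 2), g = 1 ∨ g = swap 0 1 := by decide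
    rcases h6 g with rfl | rfl
    · exact one_mem _
    · exact Subgroup.subset_closure (by simp [h5])

/-- **The permutation-building game, Convention I.** For every `N ≥ 1`: player A has a winning
strategy if and only if `N ≤ 2`, and player B has a winning strategy if and only if `N ≥ 3`. -/
theorem result (N : ℕ) (hN : 1 ≤ N) :
    (HasWinningStrategy Convention.I Player.A N ↔ N ≤ 2) ∧
    (HasWinningStrategy Convention.I Player.B N ↔ 3 ≤ N) := by
  by_cases h : N ≤ 2
  · have hA := aWins_small hN h
    exact ⟨⟨fun _ => h, fun _ => hA⟩,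
      ⟨fun hB => (not_both _ N hA hB).elim, fun h3 => absurd h3 (by omega)⟩⟩
  · have h3 : 3 ≤ N := by omega
    have hB : HasWinningStrategy Convention.I Player.B N := by
      rcases Nat.even_or_odd N with he | ho
      · exact bWins_even he (by obtain ⟨m, hm⟩ := he; omega)
      · exact bWins_odd ho h3
    exact ⟨⟨fun hA => (not_both _ N hA hB).elim, fun h2 => absurd h2 h⟩,
      ⟨fun _ => h3, fun _ => hB⟩⟩

end Pool.Agent.Results.MP_337ab5_co.ConventionOne
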